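import Mathlib

set_option autoImplicit false

open MeasureTheory Filter Topology Set

namespace Pool.Agent.Results.MP_271f9a_pr.LimitPositive

/-- Covariance of fractional Brownian motion with Hurst parameter `H`. -/
noncomputable def cov (H s t : ℝ) : ℝ := (|s| ^ (2 * H) + |t| ^ (2 * H) - |s - t| ^ (2 * H)) / 2

/-- The matrix `R_H` with entries `R_H(i, j)`, `1 ≤ i, j ≤ N`. -/
noncomputable def R (H : ℝ) (N : ℕ) : Matrix (Fin N) (Fin N) ℝ :=
  Matrix.of fun i j => cov H ((i : ℕ) + 1) ((j : ℕ) + 1)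

/-- `a^* M a` for a real matrix `M` and a complex vector `a`. -/
noncomputable def form {N : ℕ} (M : Matrix (Fin N) (Fin N) ℝ) (a : Fin N → ℂ) : ℂ :=
  dotProduct (star a) ((M.map Complex.ofReal).mulVec a)

/-- `κ(γ, N)`: the infimum over nonzero complex vectors of the Rayleigh quotient of the pair
`(R_H ∘ R_H, R_H)`, `H = γ / 2`, where `∘` is the entrywise product. -/
noncomputable def kappa (γ : ℝ) (N : ℕ) : ℝ :=
  sInf {r : ℝ | ∃ a : Fin N → ℂ, a ≠ 0 ∧
    r = (form ((R (γ / 2) N).hadamard (R (γ / 2) N)) a).re / (form (R (γ / 2) N) a).re}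

/-- The integrand `(1 - cos (t u)) u^(-α-1)`. -/
noncomputable def g (α t u : ℝ) : ℝ := (1 - Real.cos (t * u)) * u ^ (-α - 1)

theorem g_integrable (α t : ℝ) (h0 : 0 < α) (h2 : α < 2) : IntegrableOn (g α t) (Ioi 0) := by
  have hm : Measurable (g α t) := by
    unfold g
    fun_prop
  have hsplit : Ioi (0 : ℝ) = Ioc 0 1 ∪ Ioi 1 := (Ioc_union_Ioi_eq_Ioi zero_le_one).symm
  rw [hsplit]
  refine IntegrableOn.union ?_ ?_
  · have h1 : IntegrableOn (fun u : ℝ => t ^ 2 / 2 * u ^ (1 - α)) (Ioc 0 1) := by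
      have := (intervalIntegral.intervalIntegrable_rpow' (a := 0) (b := 1)
        (by linarith : -1 < 1 - α)).const_mul (t ^ 2 / 2)
      rwa [intervalIntegrable_iff_integrableOn_Ioc_of_le zero_le_one] at this
    refine Integrable.mono' h1 hm.aestronglyMeasurable ?_
    refine (ae_restrict_iff' measurableSet_Ioc).2 (ae_of_all _ fun u hu => ?_)
    have hu0 : 0 < u := hu.1
    have hc : 1 - Real.cos (t * u) ≤ (t * u) ^ 2 / 2 := by
      have := Real.one_sub_sq_div_two_le_cos (x := t * u)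
      linarith
    have hc0 : 0 ≤ 1 - Real.cos (t * u) := by linarith [Real.cos_le_one (t * u)]
    have hr : 0 ≤ u ^ (-α - 1) := Real.rpow_nonneg hu0.le _
    unfold g
    rw [Real.norm_of_nonneg (mul_nonneg hc0 hr)]
    calc (1 - Real.cos (t * u)) * u ^ (-α - 1) ≤ (t * u) ^ 2 / 2 * u ^ (-α - 1) :=
          mul_le_mul_of_nonneg_right hc hr
      _ = t ^ 2 / 2 * (u ^ (2 : ℝ) * u ^ (-α - 1)) := by
          rw [Real.rpow_two]; ring
      _ = t ^ 2 / 2 * u ^ (1 - α) := by
          rw [← Real.rpow_add hu0]; ring_nf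
  · have h1 : IntegrableOn (fun u : ℝ => 2 * u ^ (-α - 1)) (Ioi 1) := by
      have := (integrableOn_Ioi_rpow_of_lt (by linarith : -α - 1 < -1) zero_lt_one)
      exact this.const_mul 2
    refine Integrable.mono' h1 hm.aestronglyMeasurable ?_
    refine (ae_restrict_iff' measurableSet_Ioi).2 (ae_of_all _ fun u hu => ?_)
    have hu0 : 0 < u := lt_trans zero_lt_one hu
    have hc : 1 - Real.cos (t * u) ≤ 2 := by linarith [Real.neg_one_le_cos (t * u)]
    have hc0 : 0 ≤ 1 - Real.cos (t * u) := by linarith [Real.cos_le_one (t * u)]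
    have hr : 0 ≤ u ^ (-α - 1) := Real.rpow_nonneg hu0.le _
    unfold g
    rw [Real.norm_of_nonneg (mul_nonneg hc0 hr)]
    exact mul_le_mul_of_nonneg_right hc hr

/-- The constant `∫_0^∞ (1 - cos u) u^(-α-1) du`. -/
noncomputable def I1 (α : ℝ) : ℝ := ∫ u in Ioi (0 : ℝ), g α 1 u

theorem g_scale (α t : ℝ) (h0 : 0 < α) : ∫ u in Ioi (0 : ℝ), g α t u = |t| ^ α * I1 α := by
  have habs : ∀ u, g α t u = g α |t| u := by
    intro u
    unfold g
    rcases abs_choice t with h | h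
    · rw [h]
    · rw [h, neg_mul, Real.cos_neg]
  simp_rw [habs]
  rcases eq_or_lt_of_le (abs_nonneg t) with h | h
  · rw [← h]
    have : ∀ u, g α 0 u = 0 := by intro u; simp [g]
    simp [this, Real.zero_rpow h0.ne']
  · have h1 := integral_comp_mul_left_Ioi (fun v => g α 1 v) 0 h
    rw [mul_zero, smul_eq_mul] at h1
    have h2 : ∫ x in Ioi (0 : ℝ), g α 1 (|t| * x) =
        |t| ^ (-α - 1) * ∫ u in Ioi (0 : ℝ), g α |t| u := by
      rw [← integral_const_mul]
      refine setIntegral_congr_fun measurableSet_Ioi fun u hu => ?_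
      have hu0 : (0 : ℝ) < u := hu
      unfold g
      simp only [one_mul]
      rw [Real.mul_rpow h.le hu0.le]
      ring
    rw [h2] at h1
    have h3 : |t| ^ (α + 1) * |t| ^ (-α - 1) = 1 := by
      rw [← Real.rpow_add h]; simp
    calc ∫ u in Ioi (0 : ℝ), g α |t| u
        = |t| ^ (α + 1) * (|t| ^ (-α - 1) * ∫ u in Ioi (0 : ℝ), g α |t| u) := by
          rw [← mul_assoc, h3, one_mul]
      _ = |t| ^ (α + 1) * (|t|⁻¹ * I1 α) := by rw [h1]; rfl
      _ = |t| ^ α * I1 α := by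
          rw [Real.rpow_add h, Real.rpow_one]
          field_simp

theorem I1_pos (α : ℝ) (h0 : 0 < α) (h2 : α < 2) : 0 < I1 α := by
  unfold I1
  rw [setIntegral_pos_iff_support_of_nonneg_ae]
  · have hsub : Ioo (0 : ℝ) 1 ⊆ Function.support (g α 1) ∩ Ioi 0 := by
      intro u hu
      refine ⟨?_, hu.1⟩
      rw [Function.mem_support]
      unfold g
      have hc : Real.cos (1 * u) < 1 := by
        rw [one_mul]
        have := Real.cos_lt_cos_of_nonneg_of_le_pi (le_refl 0)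
          (hu.2.le.trans (by linarith [Real.pi_gt_three])) hu.1
        rwa [Real.cos_zero] at this
      exact mul_ne_zero (by linarith) (Real.rpow_pos_of_pos hu.1 _).ne'
    refine lt_of_lt_of_le ?_ (measure_mono hsub)
    simp
  · refine (ae_restrict_iff' measurableSet_Ioi).2 (ae_of_all _ fun u hu => ?_)
    have hu0 : (0 : ℝ) < u := hu
    exact mul_nonneg (by linarith [Real.cos_le_one (1 * u)]) (Real.rpow_nonneg hu0.le _)
  · exact g_integrable α 1 h0 h2

/-- The quadratic form `x^T M x`. -/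
def q {N : ℕ} (M : Matrix (Fin N) (Fin N) ℝ) (x : Fin N → ℝ) : ℝ :=
  ∑ i, ∑ j, x i * x j * M i j

/-- `|∑ x_j (1 - e^{i (j+1) u})|^2`. -/
noncomputable def Q {N : ℕ} (x : Fin N → ℝ) (u : ℝ) : ℝ :=
  (∑ j, x j * (1 - Real.cos (((j : ℕ) + 1 : ℝ) * u))) ^ 2 +
    (∑ j, x j * Real.sin (((j : ℕ) + 1 : ℝ) * u)) ^ 2

theorem Q_eq {N : ℕ} (x : Fin N → ℝ) (u : ℝ) : Q x u = ∑ i, ∑ j, x i * x j *
    (1 - Real.cos (((i : ℕ) + 1 : ℝ) * u) - Real.cos (((j : ℕ) + 1 : ℝ) * u) +
      Real.cos ((((i : ℕ) + 1 : ℝ) - ((j : ℕ) + 1 : ℝ)) * u)) := by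
  unfold Q
  rw [sq, sq, Finset.sum_mul_sum, Finset.sum_mul_sum, ← Finset.sum_add_distrib]
  refine Finset.sum_congr rfl fun i _ => ?_
  rw [← Finset.sum_add_distrib]
  refine Finset.sum_congr rfl fun j _ => ?_
  rw [sub_mul, Real.cos_sub]
  ring

theorem int3 (α a b c : ℝ) (h0 : 0 < α) (h2 : α < 2) :
    ∫ u in Ioi (0 : ℝ), (g α a u + g α b u - g α c u) =
      |a| ^ α * I1 α + |b| ^ α * I1 α - |c| ^ α * I1 α := by
  have hint : ∀ t : ℝ, Integrable (g α t) (volume.restrict (Ioi 0)) :=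
    fun t => g_integrable α t h0 h2
  have e1 := integral_add (hint a) (hint b)
  have e2 := integral_sub (f := fun u => g α a u + g α b u) ((hint a).add (hint b)) (hint c)
  rw [e2, e1, g_scale α _ h0, g_scale α _ h0, g_scale α _ h0]

theorem form_int {N : ℕ} (α : ℝ) (h0 : 0 < α) (h2 : α < 2) (x : Fin N → ℝ) :
    2 * I1 α * q (R (α / 2) N) x = ∫ u in Ioi (0 : ℝ), Q x u * u ^ (-α - 1) := by
  have hpt : ∀ u, Q x u * u ^ (-α - 1) = ∑ i, ∑ j, x i * x j *
      (g α ((i : ℕ) + 1 : ℝ) u + g α ((j : ℕ) + 1 : ℝ) u -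
        g α (((i : ℕ) + 1 : ℝ) - ((j : ℕ) + 1 : ℝ)) u) := by
    intro u
    rw [Q_eq, Finset.sum_mul]
    refine Finset.sum_congr rfl fun i _ => ?_
    rw [Finset.sum_mul]
    refine Finset.sum_congr rfl fun j _ => ?_
    unfold g
    ring
  simp_rw [hpt]
  have hint : ∀ t : ℝ, Integrable (g α t) (volume.restrict (Ioi 0)) :=
    fun t => g_integrable α t h0 h2
  rw [integral_finsetSum]
  · unfold q
    rw [Finset.mul_sum]
    refine Finset.sum_congr rfl fun i _ => ?_
    rw [integral_finsetSum]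
    · rw [Finset.mul_sum]
      refine Finset.sum_congr rfl fun j _ => ?_
      rw [integral_const_mul, int3 α _ _ _ h0 h2]
      unfold R cov
      simp only [Matrix.of_apply]
      have : 2 * (α / 2) = α := by ring
      rw [this]
      ring
    · intro j _
      exact (((hint _).add (hint _)).sub (hint _)).const_mul _
  · intro i _
    refine integrable_finsetSum _ fun j _ => ?_
    exact (((hint _).add (hint _)).sub (hint _)).const_mul _

theorem Q_int {N : ℕ} (α : ℝ) (h0 : 0 < α) (h2 : α < 2) (x : Fin N → ℝ) :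
    IntegrableOn (fun u => Q x u * u ^ (-α - 1)) (Ioi 0) := by
  have hpt : ∀ u, Q x u * u ^ (-α - 1) = ∑ i, ∑ j, x i * x j *
      (g α ((i : ℕ) + 1 : ℝ) u + g α ((j : ℕ) + 1 : ℝ) u -
        g α (((i : ℕ) + 1 : ℝ) - ((j : ℕ) + 1 : ℝ)) u) := by
    intro u
    rw [Q_eq, Finset.sum_mul]
    refine Finset.sum_congr rfl fun i _ => ?_
    rw [Finset.sum_mul]
    refine Finset.sum_congr rfl fun j _ => ?_
    unfold g
    ring
  simp_rw [hpt]
  have hint : ∀ t : ℝ, Integrable (g α t) (volume.restrict (Ioi 0)) :=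
    fun t => g_integrable α t h0 h2
  refine integrable_finsetSum _ fun i _ => integrable_finsetSum _ fun j _ => ?_
  exact (((hint _).add (hint _)).sub (hint _)).const_mul _

theorem icos (m : ℝ) (hm : ∃ k : ℤ, m = k) :
    ∫ u in (0 : ℝ)..Real.pi, Real.cos (m * u) = if m = 0 then Real.pi else 0 := by
  split_ifs with h
  · subst h; simp
  · rw [intervalIntegral.integral_comp_mul_left (fun u => Real.cos u) h, integral_cos]
    obtain ⟨k, rfl⟩ := hm
    simp [Real.sin_int_mul_pi]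

theorem Q_integral {N : ℕ} (x : Fin N → ℝ) :
    ∫ u in (0 : ℝ)..Real.pi, Q x u = Real.pi * ((∑ i, x i) ^ 2 + ∑ i, x i ^ 2) := by
  simp_rw [Q_eq]
  have hc : ∀ t : ℝ, IntervalIntegrable (fun u => Real.cos (t * u)) volume 0 Real.pi :=
    fun t => (by fun_prop : Continuous fun u => Real.cos (t * u)).intervalIntegrable _ _
  have h1 : IntervalIntegrable (fun _ : ℝ => (1 : ℝ)) volume 0 Real.pi :=
    continuous_const.intervalIntegrable _ _
  rw [intervalIntegral.integral_finsetSum]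
  · have : ∀ i ∈ (Finset.univ : Finset (Fin N)), ∫ u in (0 : ℝ)..Real.pi, ∑ j, x i * x j *
        (1 - Real.cos (((i : ℕ) + 1 : ℝ) * u) - Real.cos (((j : ℕ) + 1 : ℝ) * u) +
        Real.cos ((((i : ℕ) + 1 : ℝ) - ((j : ℕ) + 1 : ℝ)) * u)) =
        ∑ j, x i * x j * (Real.pi + if i = j then Real.pi else 0) := by
      intro i _
      rw [intervalIntegral.integral_finsetSum]
      · refine Finset.sum_congr rfl fun j _ => ?_
        rw [intervalIntegral.integral_const_mul,
          intervalIntegral.integral_add ((h1.sub (hc _)).sub (hc _)) (hc _),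
          intervalIntegral.integral_sub (h1.sub (hc _)) (hc _),
          intervalIntegral.integral_sub h1 (hc _),
          icos _ ⟨((i : ℕ) : ℤ) + 1, by push_cast; ring⟩,
          icos _ ⟨((j : ℕ) : ℤ) + 1, by push_cast; ring⟩,
          icos _ ⟨((i : ℕ) : ℤ) - ((j : ℕ) : ℤ), by push_cast; ring⟩]
        have hi : ((i : ℕ) + 1 : ℝ) ≠ 0 := by positivity
        have hj : ((j : ℕ) + 1 : ℝ) ≠ 0 := by positivity
        rw [if_neg hi, if_neg hj]
        by_cases h : i = j
        · subst h; simp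
        · have : ((i : ℕ) + 1 : ℝ) - ((j : ℕ) + 1 : ℝ) ≠ 0 := by
            intro h'
            apply h
            apply Fin.ext
            have : ((i : ℕ) : ℝ) = ((j : ℕ) : ℝ) := by linarith
            exact_mod_cast this
          rw [if_neg this, if_neg h]
          simp
      · intro j _
        exact (((h1.sub (hc _)).sub (hc _)).add (hc _)).const_mul _
    rw [Finset.sum_congr rfl this, sq, Finset.sum_mul_sum, ← Finset.sum_add_distrib,
      Finset.mul_sum]
    refine Finset.sum_congr rfl fun i _ => ?_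
    simp only [mul_add, Finset.sum_add_distrib]
    rw [Finset.mul_sum]
    congr 1
    · exact Finset.sum_congr rfl fun j _ => by ring
    · simp only [mul_ite, mul_zero, Finset.sum_ite_eq, Finset.mem_univ, if_true]
      ring
  · intro i _
    exact Continuous.intervalIntegrable (by fun_prop) _ _

/-- The lower bound for the covariance matrix. -/
theorem q_lower {N : ℕ} (α : ℝ) (h0 : 0 < α) (h2 : α < 2) (x : Fin N → ℝ) :
    Real.pi ^ (-α) / (2 * I1 α) * ((∑ i, x i) ^ 2 + ∑ i, x i ^ 2) ≤ q (R (α / 2) N) x := by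
  have hI := I1_pos α h0 h2
  have hpi := Real.pi_pos
  have hQ0 : ∀ u, 0 ≤ Q x u := fun u => by unfold Q; positivity
  have key : Real.pi ^ (-α - 1) * (Real.pi * ((∑ i, x i) ^ 2 + ∑ i, x i ^ 2)) ≤
      2 * I1 α * q (R (α / 2) N) x := by
    rw [form_int α h0 h2, ← Q_integral, intervalIntegral.integral_of_le hpi.le,
      ← integral_const_mul]
    have hsub : Ioc 0 Real.pi ⊆ Ioi (0 : ℝ) := fun u hu => hu.1
    refine le_trans ?_ (setIntegral_mono_set (Q_int α h0 h2 x) ?_ (LE.le.eventuallyLE hsub))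
    · refine setIntegral_mono_on ?_ ((Q_int α h0 h2 x).mono_set hsub) measurableSet_Ioc ?_
      · have hc : Continuous fun u => Real.pi ^ (-α - 1) * Q x u := by
          unfold Q
          fun_prop
        exact (hc.integrableOn_Icc).mono_set Ioc_subset_Icc_self
      · intro u hu
        rw [mul_comm]
        refine mul_le_mul_of_nonneg_left ?_ (hQ0 u)
        exact Real.rpow_le_rpow_of_nonpos hu.1 hu.2 (by linarith)
    · refine (ae_restrict_iff' measurableSet_Ioi).2 (ae_of_all _ fun u hu => ?_)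
      have hu0 : (0 : ℝ) < u := hu
      exact mul_nonneg (hQ0 u) (Real.rpow_nonneg hu0.le _)
  have e : Real.pi ^ (-α - 1) * (Real.pi * ((∑ i, x i) ^ 2 + ∑ i, x i ^ 2)) =
      Real.pi ^ (-α) * ((∑ i, x i) ^ 2 + ∑ i, x i ^ 2) := by
    rw [← mul_assoc]
    congr 1
    nth_rewrite 2 [← Real.rpow_one Real.pi]
    rw [← Real.rpow_add hpi]
    ring_nf
  rw [e] at key
  rw [div_mul_eq_mul_div, div_le_iff₀ (by positivity)]
  linarith

theorem R_symm (H : ℝ) (N : ℕ) (i j : Fin N) : R H N i j = R H N j i := by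
  unfold R cov
  simp only [Matrix.of_apply]
  rw [abs_sub_comm]
  ring

/-- The lower bound for `κ`. -/
noncomputable def c0 (α : ℝ) : ℝ := Real.pi ^ (-α) / (2 * I1 α)

theorem c0_pos (α : ℝ) (h0 : 0 < α) (h2 : α < 2) : 0 < c0 α := by
  have hI := I1_pos α h0 h2
  unfold c0
  positivity

theorem q_eq_dot {N : ℕ} (M : Matrix (Fin N) (Fin N) ℝ) (x : Fin N → ℝ) :
    dotProduct x (M.mulVec x) = q M x := by
  unfold dotProduct Matrix.mulVec dotProduct q
  refine Finset.sum_congr rfl fun i _ => ?_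
  rw [Finset.mul_sum]
  exact Finset.sum_congr rfl fun j _ => by ring

theorem R_psd (α : ℝ) (h0 : 0 < α) (h2 : α < 2) (N : ℕ) : (R (α / 2) N).PosSemidef := by
  refine Matrix.PosSemidef.of_dotProduct_mulVec_nonneg ?_ ?_
  · ext i j
    simp [R_symm (α / 2) N i j]
  · intro x
    simp only [star_trivial]
    rw [q_eq_dot]
    refine le_trans ?_ (q_lower α h0 h2 x)
    have := c0_pos α h0 h2
    unfold c0 at this
    have h3 : 0 ≤ ∑ i, x i ^ 2 := Finset.sum_nonneg fun i _ => sq_nonneg _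
    positivity

theorem R_sub_psd (α : ℝ) (h0 : 0 < α) (h2 : α < 2) (N : ℕ) :
    (R (α / 2) N - Matrix.of fun _ _ => c0 α).PosSemidef := by
  refine Matrix.PosSemidef.of_dotProduct_mulVec_nonneg ?_ ?_
  · ext i j
    simp [R_symm (α / 2) N i j]
  · intro x
    simp only [star_trivial]
    rw [q_eq_dot]
    have h := q_lower α h0 h2 x
    have hc := c0_pos α h0 h2
    have h3 : 0 ≤ ∑ i, x i ^ 2 := Finset.sum_nonneg fun i _ => sq_nonneg _
    have e : q (R (α / 2) N - Matrix.of fun _ _ => c0 α) x =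
        q (R (α / 2) N) x - c0 α * (∑ i, x i) ^ 2 := by
      unfold q
      rw [sq, Finset.sum_mul_sum, Finset.mul_sum, ← Finset.sum_sub_distrib]
      refine Finset.sum_congr rfl fun i _ => ?_
      rw [Finset.mul_sum, ← Finset.sum_sub_distrib]
      refine Finset.sum_congr rfl fun j _ => ?_
      simp only [Matrix.sub_apply, Matrix.of_apply]
      ring
    rw [e]
    have h4 : 0 ≤ c0 α * ∑ i, x i ^ 2 := mul_nonneg hc.le h3
    change c0 α * _ ≤ _ at h
    rw [mul_add] at h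
    linarith

theorem q_hadamard (α : ℝ) (h0 : 0 < α) (h2 : α < 2) (N : ℕ) (x : Fin N → ℝ) :
    c0 α * q (R (α / 2) N) x ≤ q ((R (α / 2) N).hadamard (R (α / 2) N)) x := by
  have h := ((R_psd α h0 h2 N).hadamard (R_sub_psd α h0 h2 N)).dotProduct_mulVec_nonneg x
  simp only [star_trivial] at h
  rw [q_eq_dot] at h
  have e : q ((R (α / 2) N).hadamard (R (α / 2) N - Matrix.of fun _ _ => c0 α)) x =
      q ((R (α / 2) N).hadamard (R (α / 2) N)) x - c0 α * q (R (α / 2) N) x := by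
    unfold q
    rw [Finset.mul_sum, ← Finset.sum_sub_distrib]
    refine Finset.sum_congr rfl fun i _ => ?_
    rw [Finset.mul_sum, ← Finset.sum_sub_distrib]
    refine Finset.sum_congr rfl fun j _ => ?_
    simp only [Matrix.hadamard_apply, Matrix.sub_apply, Matrix.of_apply]
    ring
  rw [e] at h
  linarith

theorem form_re {N : ℕ} (M : Matrix (Fin N) (Fin N) ℝ) (a : Fin N → ℂ) :
    (form M a).re = q M (fun i => (a i).re) + q M (fun i => (a i).im) := by
  unfold form q dotProduct Matrix.mulVec dotProduct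
  rw [Complex.re_sum, ← Finset.sum_add_distrib]
  refine Finset.sum_congr rfl fun i _ => ?_
  rw [Finset.mul_sum, Complex.re_sum, ← Finset.sum_add_distrib]
  refine Finset.sum_congr rfl fun j _ => ?_
  simp [Complex.mul_re, Complex.mul_im]
  ring

theorem form_pos (α : ℝ) (h0 : 0 < α) (h2 : α < 2) (N : ℕ) (a : Fin N → ℂ) (ha : a ≠ 0) :
    0 < (form (R (α / 2) N) a).re := by
  rw [form_re]
  have h1 := q_lower α h0 h2 (fun i => (a i).re)
  have h3 := q_lower α h0 h2 (fun i => (a i).im)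
  have hc := c0_pos α h0 h2
  change c0 α * _ ≤ _ at h1 h3
  obtain ⟨i, hi⟩ := Function.ne_iff.1 ha
  have hi' : 0 < (a i).re ^ 2 + (a i).im ^ 2 := by
    by_contra hcon
    push Not at hcon
    have hr : (a i).re = 0 := by nlinarith [sq_nonneg (a i).re, sq_nonneg (a i).im]
    have him : (a i).im = 0 := by nlinarith [sq_nonneg (a i).re, sq_nonneg (a i).im]
    exact hi (Complex.ext hr him)
  have s1 : (a i).re ^ 2 ≤ ∑ j, (a j).re ^ 2 :=
    Finset.single_le_sum (f := fun j => (a j).re ^ 2) (fun j _ => sq_nonneg _) (Finset.mem_univ i)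
  have s2 : (a i).im ^ 2 ≤ ∑ j, (a j).im ^ 2 :=
    Finset.single_le_sum (f := fun j => (a j).im ^ 2) (fun j _ => sq_nonneg _) (Finset.mem_univ i)
  have t1 : 0 ≤ (∑ j, (a j).re) ^ 2 := sq_nonneg _
  have t2 : 0 ≤ (∑ j, (a j).im) ^ 2 := sq_nonneg _
  have : 0 < c0 α * (((∑ j, (a j).re) ^ 2 + ∑ j, (a j).re ^ 2) +
      ((∑ j, (a j).im) ^ 2 + ∑ j, (a j).im ^ 2)) := mul_pos hc (by linarith)
  linarith

theorem ratio_lower (α : ℝ) (h0 : 0 < α) (h2 : α < 2) (N : ℕ) (a : Fin N → ℂ) (ha : a ≠ 0) :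
    c0 α ≤ (form ((R (α / 2) N).hadamard (R (α / 2) N)) a).re / (form (R (α / 2) N) a).re := by
  rw [le_div_iff₀ (form_pos α h0 h2 N a ha), form_re, form_re, mul_add]
  exact add_le_add (q_hadamard α h0 h2 N _) (q_hadamard α h0 h2 N _)

theorem form_snoc {N : ℕ} (M : Matrix (Fin N) (Fin N) ℝ) (M' : Matrix (Fin (N + 1)) (Fin (N + 1)) ℝ)
    (h : ∀ i j : Fin N, M' i.castSucc j.castSucc = M i j) (a : Fin N → ℂ) :
    form M' (Fin.snoc a 0 : Fin (N + 1) → ℂ) = form M a := by
  unfold form dotProduct Matrix.mulVec dotProduct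
  rw [Fin.sum_univ_castSucc]
  simp only [Pi.star_apply, Fin.snoc_castSucc, Fin.snoc_last, star_zero, zero_mul, add_zero,
    Fin.sum_univ_castSucc, mul_zero, Matrix.map_apply, h]

theorem R_castSucc (H : ℝ) (N : ℕ) (i j : Fin N) : R H (N + 1) i.castSucc j.castSucc = R H N i j := by
  unfold R
  simp

/-- The set of Rayleigh quotients. -/
def S (γ : ℝ) (N : ℕ) : Set ℝ := {r : ℝ | ∃ a : Fin N → ℂ, a ≠ 0 ∧
    r = (form ((R (γ / 2) N).hadamard (R (γ / 2) N)) a).re / (form (R (γ / 2) N) a).re}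

theorem S_nonempty (γ : ℝ) (N : ℕ) : (S γ (N + 1)).Nonempty :=
  ⟨_, fun _ => 1, fun h => one_ne_zero (congrFun h 0), rfl⟩

theorem S_lower (γ : ℝ) (h0 : 0 < γ) (h2 : γ < 2) (N : ℕ) : c0 γ ∈ lowerBounds (S γ N) := by
  rintro r ⟨a, ha, rfl⟩
  exact ratio_lower γ h0 h2 N a ha

theorem S_mono (γ : ℝ) (N : ℕ) : S γ N ⊆ S γ (N + 1) := by
  rintro r ⟨a, ha, rfl⟩
  refine ⟨Fin.snoc a 0, ?_, ?_⟩
  · intro h
    apply ha
    funext i
    have := congrFun h i.castSucc
    simpa using this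
  · rw [form_snoc (R (γ / 2) N) (R (γ / 2) (N + 1)) (R_castSucc _ _),
      form_snoc ((R (γ / 2) N).hadamard (R (γ / 2) N)) _
        (fun i j => by simp only [Matrix.hadamard_apply, R_castSucc])]

theorem kappa_anti (γ : ℝ) (h0 : 0 < γ) (h2 : γ < 2) :
    Antitone fun N => kappa γ (N + 1) := by
  refine antitone_nat_of_succ_le fun N => ?_
  exact csInf_le_csInf ⟨c0 γ, S_lower γ h0 h2 (N + 2)⟩ (S_nonempty γ N) (S_mono γ (N + 1))

theorem kappa_lower (γ : ℝ) (h0 : 0 < γ) (h2 : γ < 2) (N : ℕ) : c0 γ ≤ kappa γ (N + 1) :=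
  le_csInf (S_nonempty γ N) (S_lower γ h0 h2 (N + 1))

/-- For every `γ ∈ (0, 2)`, in particular for every `γ ∈ (1, 2)`, the limit `κ(γ)` of `κ(γ, N)`
is positive, and it is at least `π^(-γ) / (2 ∫_0^∞ (1 - cos u) u^(-γ-1) du)`. -/
theorem result : ∀ γ : ℝ, 0 < γ → γ < 2 → ∃ κ : ℝ, 0 < κ ∧
    Real.pi ^ (-γ) / (2 * ∫ u in Ioi (0 : ℝ), (1 - Real.cos u) * u ^ (-γ - 1)) ≤ κ ∧
    Tendsto (fun N : ℕ => kappa γ N) atTop (𝓝 κ) := by
  intro γ h0 h2
  have hb : BddBelow (range fun N => kappa γ (N + 1)) :=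
    ⟨c0 γ, by rintro _ ⟨N, rfl⟩; exact kappa_lower γ h0 h2 N⟩
  have hlim := tendsto_atTop_ciInf (kappa_anti γ h0 h2) hb
  have hle : c0 γ ≤ ⨅ N, kappa γ (N + 1) := le_ciInf fun N => kappa_lower γ h0 h2 N
  have hI : (∫ u in Ioi (0 : ℝ), (1 - Real.cos u) * u ^ (-γ - 1)) = I1 γ := by
    unfold I1 g
    simp only [one_mul]
  refine ⟨⨅ N, kappa γ (N + 1), (c0_pos γ h0 h2).trans_le hle, ?_, ?_⟩
  · rw [hI]; exact hle
  · exact (tendsto_add_atTop_iff_nat 1).1 hlim

end Pool.Agent.Results.MP_271f9a_pr.LimitPositive
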